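import Mathlib
import Pool.Agent.Helper69.MC.StB

/-!
# Project MC, module RPL: regular points are plane points
-/

set_option autoImplicit false

open Set Topology Filter MeasureTheory
open Pool.Agent.Helper31.CY Pool.Agent.Helper69.MF Pool.Agent.Helper69.MC

namespace Pool.Agent.Helper64.MC

/-- a nonzero linear form is, up to a factor, the first coordinate of an isometry -/
theorem exists_frame (l : E3 →L[ℝ] ℝ) (hl : l ≠ 0) :
    ∃ (c : ℝ) (A : E3 ≃ₗᵢ[ℝ] E3), c ≠ 0 ∧ ∀ w, (A w) 0 = l w / c := by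
  set g : E3 := (InnerProductSpace.toDual ℝ E3).symm l with hg
  have hlg : ∀ w, l w = inner ℝ g w := fun w => (InnerProductSpace.toDual_symm_apply (𝕜 := ℝ)).symm
  have hg0 : g ≠ 0 := by
    intro h
    apply hl
    ext w
    rw [hlg, h, inner_zero_left]
    rfl
  have hn : ‖g‖ ≠ 0 := norm_ne_zero_iff.2 hg0
  set N : E3 := (‖g‖)⁻¹ • g with hN
  have hN1 : ‖N‖ = 1 := by
    rw [hN, norm_smul, norm_inv, norm_norm, inv_mul_cancel₀ hn]
  have horth : Orthonormal ℝ (({0} : Set (Fin 3)).domRestrict (fun _ : Fin 3 => N)) := by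
    constructor
    · intro i
      exact hN1
    · intro i j hij
      exact absurd (Subsingleton.elim i j) hij
  obtain ⟨b, hb⟩ := horth.exists_orthonormalBasis_extension_of_card_eq (by simp)
  refine ⟨‖g‖, b.repr, hn, ?_⟩
  intro w
  rw [OrthonormalBasis.repr_apply_apply, hb 0 (by simp), hlg, hN, inner_smul_left]
  simp only [conj_trivial]
  field_simp

theorem hRPL : StCNE → StRPL := by
  intro hC S q hq hreg
  obtain ⟨f, U, hU, hqU, hf, hdf, hS, -⟩ := hreg
  obtain ⟨c, A, hc, hA⟩ := exists_frame (fderiv ℝ f q) (hdf q hqU)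
  have hfq : f q = 0 := (hS q hqU).1 hq
  have hfd : HasFDerivAt f (fderiv ℝ f q) q :=
    ((hf.differentiableOn (by norm_num)).differentiableAt (hU.mem_nhds hqU)).hasFDerivAt
  set e0 : E3 := EuclideanSpace.single 0 1 with he0
  set Φ : E3 → E3 := fun x => A (x - q) + (f x / c - (A (x - q)) 0) • e0 with hΦ
  have hΦ0 : ∀ x, (Φ x) 0 = f x / c := by
    intro x
    simp [hΦ, he0]
  have hd : HasFDerivAt Φ (A.toContinuousLinearEquiv : E3 →L[ℝ] E3) q := by
    have h1 : HasFDerivAt (fun x => A (x - q)) (A.toContinuousLinearEquiv : E3 →L[ℝ] E3) q := by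
      have h2 : HasFDerivAt (fun x : E3 => x - q) (ContinuousLinearMap.id ℝ E3) q :=
        (hasFDerivAt_id q).sub_const q
      have h3 := (A.toContinuousLinearEquiv : E3 →L[ℝ] E3).hasFDerivAt.comp q h2
      have h3' : HasFDerivAt (fun x => A (x - q))
          ((A.toContinuousLinearEquiv : E3 →L[ℝ] E3).comp (ContinuousLinearMap.id ℝ E3)) q := h3
      rwa [ContinuousLinearMap.comp_id] at h3'
    have h4 : HasFDerivAt (fun x => (A (x - q)) 0)
        ((EuclideanSpace.proj (𝕜 := ℝ) (0 : Fin 3)).comp (A.toContinuousLinearEquiv : E3 →L[ℝ] E3)) q := by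
      exact (EuclideanSpace.proj (𝕜 := ℝ) (0 : Fin 3) : E3 →L[ℝ] ℝ).hasFDerivAt.comp q h1
    have h5 : HasFDerivAt (fun x => f x / c) (c⁻¹ • fderiv ℝ f q) q := by
      have := hfd.const_mul c⁻¹
      simpa [div_eq_inv_mul] using this
    have h6 := h1.add ((h5.sub h4).smul_const e0)
    refine h6.congr_fderiv ?_
    ext w i
    have h7 : c⁻¹ * fderiv ℝ f q w = (A w) 0 := by
      rw [hA w]; field_simp
    simp [h7]
  refine ⟨Φ, U, hU, hqU, ?_, ?_, ?_, ?_⟩
  · have h1 : ContDiff ℝ 1 (fun x => A (x - q)) :=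
      A.contDiff.comp (contDiff_id.sub contDiff_const)
    have h2 : ContDiff ℝ 1 (fun x => (A (x - q)) 0) :=
      (EuclideanSpace.proj (𝕜 := ℝ) (0 : Fin 3) : E3 →L[ℝ] ℝ).contDiff.comp h1
    have h3 : ContDiffOn ℝ 1 f U := hf.of_le (by norm_num)
    exact h1.contDiffOn.add (((h3.div_const c).sub h2.contDiffOn).smul contDiffOn_const)
  · simp [hΦ, hfq]
  · intro v
    rw [hd.fderiv]
    exact A.norm_map v
  · intro x hx
    rw [hS x hx, hC.2.2.1]
    change f x = 0 ↔ (Φ x) 0 = 0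
    rw [hΦ0 x, div_eq_zero_iff]
    simp [hc]

end Pool.Agent.Helper64.MC
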